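import Pool.Agent.R507.ACFO.Curve

/-!
# No completion of ACFO is inp-minimal

The models of ACFO (`IsACFO`, with the groups `𝕌_(p)`, the theories `T_{m,p}`, multiplicatively
large quasi-affine varieties and the density axiom) are defined in `Pool.Agent.R612.HG.Defs`.

For distinct `a_0, ..., a_n` in `F` the curve `{(x + a_0, ..., x + a_n)}` is multiplicatively large,
so by the density axiom the translates `x + a_i` of one element `x` can be put in prescribed open
intervals, independently of each other. The formula `y_0 < x + y_2 ∧ x + y_2 < y_1`, with pairwise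
disjoint intervals in every row and with the translation `a_i` in the row `i`, gives an inp-pattern
of infinite depth.
-/

set_option autoImplicit false

universe u

namespace Pool.Agent.Results.MP_711d73_lc.NotInpMinimal

open FirstOrder FirstOrder.Language Pool.Agent.R612.HG Pool.Agent.R507.ACFO

/-- The row `{φ(x, b_j) : j < ω}`, `x` a single variable, is `k`-inconsistent in `M`: no `x` in `M`
satisfies `k` of the formulas (with distinct indices). -/
def RowInconsistent (L : FirstOrder.Language.{0, 0}) (M : Type u) (S : L.Structure M) {m : ℕ}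
    (φ : L.Formula (Unit ⊕ Fin m)) (b : ℕ → Fin m → M) (k : ℕ) : Prop :=
  ∀ s : Finset ℕ, s.card = k → ¬ ∃ x : M, ∀ j ∈ s, φ.Realize (Sum.elim (fun _ => x) (b j))

/-- There is an inp-pattern with the set `κ` of rows, in a single variable, with parameters in `M`:
formulas `φ_i(x, y_i)`, numbers `k_i` and parameters `b_{i,j}`, `j < ω`, such that every row
`{φ_i(x, b_{i,j}) : j < ω}` is `k_i`-inconsistent, and for every path `η : κ → ω` the set
`{φ_i(x, b_{i,η(i)}) : i ∈ κ}` is (finitely) consistent. -/
def InpPattern (L : FirstOrder.Language.{0, 0}) (M : Type u) (S : L.Structure M) (κ : Type) :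
    Prop :=
  ∃ (m : κ → ℕ) (φ : (i : κ) → L.Formula (Unit ⊕ Fin (m i))) (k : κ → ℕ)
    (b : (i : κ) → ℕ → Fin (m i) → M),
    (∀ i, RowInconsistent L M S (φ i) (b i) (k i)) ∧
    ∀ (η : κ → ℕ) (t : Finset κ), ∃ x : M, ∀ i ∈ t,
      (φ i).Realize (Sum.elim (fun _ => x) (b i (η i)))

/-- The theory `T` is inp-minimal: there is no inp-pattern of depth `2`, in a single variable, with
parameters in a model of `T`. -/
def InpMinimal (L : FirstOrder.Language.{0, 0}) (T : L.Theory) : Prop :=
  ∀ (M : Type u) (S : L.Structure M), @Theory.Model L M S T → ¬ InpPattern L M S (Fin 2)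

/-- the terms `x + y_2` -/
def tm : LC.Term (Unit ⊕ Fin 3) :=
  Term.func (FunC.add : LC.Functions 2) ![Term.var (Sum.inl ()), Term.var (Sum.inr 2)]

/-- the formula `y_0 < x + y_2 ∧ x + y_2 < y_1` -/
def fm : LC.Formula (Unit ⊕ Fin 3) :=
  Relations.formula₂ (Rel.lt : LC.Relations 2) (Term.var (Sum.inr 0)) tm ⊓
    Relations.formula₂ (Rel.lt : LC.Relations 2) tm (Term.var (Sum.inr 1))

theorem realize_fm {F : Type u} [Field F] (lt : Fˣ → Fˣ → Prop)
    (P : (n : ℕ) → Fin n → Fˣ → Prop) (x p q r : F) :
    @Formula.Realize LC F (strC lt P) _ fm (Sum.elim (fun _ => x) ![p, q, r]) ↔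
      ltR lt p (x + r) ∧ ltR lt (x + r) q := by
  let _ : LC.Structure F := strC lt P
  show (fm).Realize (Sum.elim (fun _ => x) ![p, q, r]) ↔ _
  rw [fm, Formula.realize_inf, Formula.realize_rel₂, Formula.realize_rel₂]
  exact Iff.rfl

theorem pattern {F : Type u} [Field F] {lt : Fˣ → Fˣ → Prop}
    {P : (n : ℕ) → Fin n → Fˣ → Prop} (h : IsACFO F lt P) {κ : Type} (e : κ ↪ F) :
    InpPattern LC F (strC lt P) κ := by
  classical
  have hord := h.ordFacts
  choose nx hnx using hord.noMax
  set c : ℕ → Fˣ := fun j => nx^[j] 1 with hc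
  have hstep : ∀ j, lt (c j) (c (j + 1)) := by
    intro j
    simp only [hc, Function.iterate_succ_apply']
    exact hnx _
  have hmono : ∀ i j, i < j → lt (c i) (c j) := by
    intro i j hij
    induction j, hij using Nat.le_induction with
    | base => exact hstep i
    | succ j _ ih => exact hord.trans _ _ _ ih (hstep j)
  refine ⟨fun _ => 3, fun _ => fm, fun _ => 2, fun i j => ![c j, c (j + 1), e i], ?_, ?_⟩
  · rintro i s hs ⟨x, hx⟩
    obtain ⟨j, j', hjj, rfl⟩ := Finset.card_eq_two.1 hs
    have key : ∀ j j' : ℕ, j < j' →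
        @Formula.Realize LC F (strC lt P) _ fm
          (Sum.elim (fun _ => x) ![(c j : F), c (j + 1), e i]) →
        @Formula.Realize LC F (strC lt P) _ fm
          (Sum.elim (fun _ => x) ![(c j' : F), c (j' + 1), e i]) → False := by
      intro j j' hj h1 h2
      rw [realize_fm] at h1 h2
      obtain ⟨⟨u, v, hu, hv, huv⟩, -⟩ := h2
      have h3 := h1.2
      rw [← hv, ltR_coe] at h3
      have h4 : u = c j' := Units.ext hu
      rw [h4] at huv
      rcases Nat.lt_or_eq_of_le (Nat.succ_le_of_lt hj) with h5 | h5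
      · exact hord.irrefl _ (hord.trans _ _ _ (hord.trans _ _ _ huv h3) (hmono _ _ h5))
      · rw [← h5] at huv
        exact hord.irrefl _ (hord.trans _ _ _ huv h3)
    have hj := hx j (by simp)
    have hj' := hx j' (by simp)
    rcases lt_or_gt_of_ne hjj with h1 | h1
    · exact key j j' h1 hj hj'
    · exact key j' j h1 hj' hj
  · intro η t
    rcases t.eq_empty_or_nonempty with rfl | ht
    · exact ⟨0, fun i hi => absurd hi (Finset.notMem_empty i)⟩
    obtain ⟨n, hn⟩ : ∃ n, t.card = n + 1 := ⟨t.card - 1, by have := ht.card_pos; omega⟩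
    set f : t ≃ Fin (n + 1) := t.equivFinOfCardEq hn with hf
    obtain ⟨x, hx⟩ := exists_translate h (a := fun l => e (f.symm l))
      (fun l l' hl => f.symm.injective (Subtype.ext (e.injective hl)))
      (fun l => {b | lt (c (η (f.symm l))) b ∧ lt b (c (η (f.symm l) + 1))})
      (fun l => open_between _ _) (fun l => hord.dense _ _ (hstep _))
    refine ⟨x, fun i hi => ?_⟩
    obtain ⟨b, hb, hbx⟩ := hx (f ⟨i, hi⟩)
    simp only [Equiv.symm_apply_apply] at hb hbx
    rw [realize_fm, ← hbx, ltR_coe, ltR_coe]
    exact hb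

/-- For every model `M = (F; <, 𝒫)` of ACFO the complete theory of `M` is not inp-minimal; in fact
there is an inp-pattern of infinite depth, in a single variable, with parameters in `M`. -/
theorem result (F : Type u) [Field F] (lt : Fˣ → Fˣ → Prop) (P : (n : ℕ) → Fin n → Fˣ → Prop)
    (h : IsACFO F lt P) :
    ¬ InpMinimal.{u} LC (@completeTheory LC F (strC lt P)) ∧
      InpPattern LC F (strC lt P) (Fin 2) ∧ InpPattern LC F (strC lt P) ℕ := by
  have := h.algClosed
  have hinf : Infinite F := IsAlgClosed.instInfinite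
  have h2 : InpPattern LC F (strC lt P) (Fin 2) :=
    pattern h (Fin.valEmbedding.trans (Infinite.natEmbedding F))
  refine ⟨fun hmin => hmin F (strC lt P) ?_ h2, h2, pattern h (Infinite.natEmbedding F)⟩
  let _ : LC.Structure F := strC lt P
  exact (inferInstance : F ⊨ LC.completeTheory F)

end Pool.Agent.Results.MP_711d73_lc.NotInpMinimal
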